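import Pool.Agent.H15.TG.Targets

/-! Row GAD of the board `tga_modules` (problem MP_51eb24_ag): the derivation of an action of the
additive group. -/

set_option autoImplicit false

namespace Pool.Agent.H7.TG

open MvPolynomial Pool.Agent.H2.ST Pool.Agent.H15.TG

section

variable {k : Type} [Field k] [CharZero k] {m : ℕ}

/-- polynomials with equal values at the constants are equal -/
theorem uniq (p q : Polynomial (Pol k m)) (h : ∀ t : k, p.eval (C t) = q.eval (C t)) : p = q := by
  refine Polynomial.eq_of_infinite_eval_eq p q ?_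
  refine Set.Infinite.mono (s := Set.range fun t : k => (C t : Pol k m)) ?_ ?_
  · rintro _ ⟨t, rfl⟩
    exact h t
  · exact Set.infinite_range_of_injective (C_injective _ _)

/-- the exponential -/
noncomputable def EE (F : Fin m ⊕ Fin m → Polynomial (Pol k m)) :
    Pol k m →ₐ[k] Polynomial (Pol k m) := aeval F

/-- evaluation at a constant -/
noncomputable def evC (t : k) : Polynomial (Pol k m) →ₐ[k] Pol k m :=
  (Polynomial.aeval (C t : Pol k m)).restrictScalars k

theorem evC_apply (t : k) (p : Polynomial (Pol k m)) : evC t p = p.eval (C t) := by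
  unfold evC
  rw [AlgHom.restrictScalars_apply, Polynomial.coe_aeval_eq_eval]

variable {σ : Multiplicative k →* (Pol k m ≃ₐ[k] Pol k m)}
  {F : Fin m ⊕ Fin m → Polynomial (Pol k m)}

theorem act (hF : ∀ (t : k) (s : Fin m ⊕ Fin m),
    σ (Multiplicative.ofAdd t) (X s) = (F s).eval (C t)) (t : k) (g : Pol k m) :
    σ (Multiplicative.ofAdd t) g = (EE F g).eval (C t) := by
  have h : ((σ (Multiplicative.ofAdd t) : Pol k m ≃ₐ[k] Pol k m) : Pol k m →ₐ[k] Pol k m) =
      (evC t).comp (EE F) := by
    refine MvPolynomial.algHom_ext fun s => ?_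
    rw [AlgHom.comp_apply, evC_apply]
    unfold EE
    rw [aeval_X]
    exact hF t s
  have h2 := DFunLike.congr_fun h g
  rw [AlgHom.comp_apply, evC_apply] at h2
  exact h2

theorem coeff0 (hF : ∀ (t : k) (s : Fin m ⊕ Fin m),
    σ (Multiplicative.ofAdd t) (X s) = (F s).eval (C t)) (g : Pol k m) :
    (EE F g).coeff 0 = g := by
  rw [Polynomial.coeff_zero_eq_eval_zero]
  have h := act hF 0 g
  rw [C_0] at h
  rw [← h, ofAdd_zero, map_one]
  rfl

theorem group (hF : ∀ (t : k) (s : Fin m ⊕ Fin m),
    σ (Multiplicative.ofAdd t) (X s) = (F s).eval (C t)) (g : Pol k m) (n : ℕ) :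
    Polynomial.hasseDeriv n (EE F g) = EE F ((EE F g).coeff n) := by
  refine uniq _ _ fun s => ?_
  have h1 : Polynomial.taylor (C s) (EE F g) =
      (EE F g).map ((σ (Multiplicative.ofAdd s) : Pol k m ≃ₐ[k] Pol k m) : Pol k m →+* Pol k m) := by
    refine uniq _ _ fun t => ?_
    rw [Polynomial.taylor_eval, ← C_add, ← act hF, add_comm t s, ofAdd_add, map_mul]
    have h2 : ((σ (Multiplicative.ofAdd s) * σ (Multiplicative.ofAdd t) :
        Pol k m ≃ₐ[k] Pol k m)) g = σ (Multiplicative.ofAdd s) (σ (Multiplicative.ofAdd t) g) := rfl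
    rw [h2, act hF t g]
    have h3 : (C t : Pol k m) = ((σ (Multiplicative.ofAdd s) : Pol k m ≃ₐ[k] Pol k m) :
        Pol k m →+* Pol k m) (C t) := ((σ (Multiplicative.ofAdd s)).commutes t).symm
    conv_rhs => rw [h3]
    rw [Polynomial.eval_map_apply]
    rfl
  have h4 := congrArg (fun p => Polynomial.coeff p n) h1
  rw [Polynomial.taylor_coeff, Polynomial.coeff_map] at h4
  rw [h4]
  exact act hF s _

/-- the derivation -/
noncomputable def DD (hF : ∀ (t : k) (s : Fin m ⊕ Fin m),
    σ (Multiplicative.ofAdd t) (X s) = (F s).eval (C t)) :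
    Derivation k (Pol k m) (Pol k m) :=
  Derivation.mk'
    { toFun := fun g => (EE F g).coeff 1
      map_add' := fun a b => by rw [map_add, Polynomial.coeff_add]
      map_smul' := fun c a => by
        rw [map_smul, Polynomial.coeff_smul, RingHom.id_apply] }
    (fun a b => by
      show (EE F (a * b)).coeff 1 = a • (EE F b).coeff 1 + b • (EE F a).coeff 1
      rw [map_mul, Polynomial.mul_coeff_one, coeff0 hF, coeff0 hF, smul_eq_mul, smul_eq_mul]
      ring)

theorem DD_apply (hF : ∀ (t : k) (s : Fin m ⊕ Fin m),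
    σ (Multiplicative.ofAdd t) (X s) = (F s).eval (C t)) (g : Pol k m) :
    DD hF g = (EE F g).coeff 1 := rfl

theorem DD_coeff (hF : ∀ (t : k) (s : Fin m ⊕ Fin m),
    σ (Multiplicative.ofAdd t) (X s) = (F s).eval (C t)) (g : Pol k m) (n : ℕ) :
    DD hF ((EE F g).coeff n) = ((n + 1 : ℕ) : Pol k m) * (EE F g).coeff (n + 1) := by
  rw [DD_apply, ← group hF, Polynomial.hasseDeriv_coeff, add_comm 1 n,
    Nat.choose_succ_self_right]

theorem DD_iter (hF : ∀ (t : k) (s : Fin m ⊕ Fin m),
    σ (Multiplicative.ofAdd t) (X s) = (F s).eval (C t)) (g : Pol k m) (n : ℕ) :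
    (DD hF)^[n] g = ((n.factorial : ℕ) : Pol k m) * (EE F g).coeff n := by
  induction n with
  | zero => rw [Function.iterate_zero, id, Nat.factorial_zero, Nat.cast_one, one_mul, coeff0 hF]
  | succ n ih =>
    rw [Function.iterate_succ_apply', ih, Derivation.leibniz, DD_coeff hF,
      Derivation.map_natCast, smul_zero, add_zero, smul_eq_mul, Nat.factorial_succ]
    push_cast
    ring

/-- the bracket of polynomials -/
noncomputable def brP (N : ℕ) (p q : Polynomial (Pol k m)) : Polynomial (Pol k m) :=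
  ∑ i ∈ Finset.range (N + 2), ∑ j ∈ Finset.range (N + 2),
    Polynomial.monomial (i + j) (br (p.coeff i) (q.coeff j))

theorem brP_eval (N : ℕ) (p q : Polynomial (Pol k m)) (hp : p.natDegree < N + 2)
    (hq : q.natDegree < N + 2) (t : k) :
    (brP N p q).eval (C t) = br (p.eval (C t)) (q.eval (C t)) := by
  have h1 : ∀ (a : Pol k m) (i : ℕ), a * C t ^ i = (t ^ i) • a := by
    intro a i
    rw [← C_pow, mul_comm, smul_eq_C_mul]
  rw [Polynomial.eval_eq_sum_range' hp, Polynomial.eval_eq_sum_range' hq]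
  unfold brP
  rw [Polynomial.eval_finsetSum, sum_br]
  refine Finset.sum_congr rfl fun i _ => ?_
  rw [Polynomial.eval_finsetSum, br_sum]
  refine Finset.sum_congr rfl fun j _ => ?_
  rw [Polynomial.eval_monomial, h1, h1, h1, smul_br, br_smul, smul_smul, pow_add]

theorem brP_coeff (N : ℕ) (p q : Polynomial (Pol k m)) :
    (brP N p q).coeff 1 = br (p.coeff 0) (q.coeff 1) + br (p.coeff 1) (q.coeff 0) := by
  unfold brP
  rw [Polynomial.finsetSum_coeff, Finset.sum_range_succ', Finset.sum_range_succ']
  have h0 : ∀ i, (∑ j ∈ Finset.range (N + 2),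
      Polynomial.monomial (i + 1 + 1 + j) (br (p.coeff (i + 1 + 1)) (q.coeff j))).coeff 1 = 0 := by
    intro i
    rw [Polynomial.finsetSum_coeff]
    refine Finset.sum_eq_zero fun j _ => ?_
    rw [Polynomial.coeff_monomial, if_neg (by omega)]
  rw [Finset.sum_eq_zero fun i _ => h0 i, zero_add]
  have h1 : (∑ j ∈ Finset.range (N + 2),
      Polynomial.monomial (0 + 1 + j) (br (p.coeff (0 + 1)) (q.coeff j))).coeff 1 =
      br (p.coeff 1) (q.coeff 0) := by
    rw [Polynomial.finsetSum_coeff, Finset.sum_range_succ']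
    rw [Finset.sum_eq_zero fun j _ => by rw [Polynomial.coeff_monomial, if_neg (by omega)],
      zero_add, Polynomial.coeff_monomial, if_pos (by omega)]
  have h2 : (∑ j ∈ Finset.range (N + 2),
      Polynomial.monomial (0 + j) (br (p.coeff 0) (q.coeff j))).coeff 1 =
      br (p.coeff 0) (q.coeff 1) := by
    rw [Polynomial.finsetSum_coeff, Finset.sum_range_succ', Finset.sum_range_succ']
    rw [Finset.sum_eq_zero fun j _ => by rw [Polynomial.coeff_monomial, if_neg (by omega)],
      zero_add, Polynomial.coeff_monomial, if_pos (by omega), Polynomial.coeff_monomial,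
      if_neg (by omega), add_zero]
  rw [h1, h2, add_comm]

end

theorem pf_GAD : T_GAD := by
  intro k _ _ m σ hσ
  obtain ⟨F, hF⟩ := hσ
  refine ⟨DD hF, ?_, ?_, ?_, ?_⟩
  · intro g
    refine ⟨(EE F g).natDegree + 1, ?_⟩
    rw [DD_iter, Polynomial.coeff_eq_zero_of_natDegree_lt (Nat.lt_succ_self _), mul_zero]
  · intro φ hφ g
    have h1 : EE F (φ g) = (EE F g).map ((φ : Pol k m ≃ₐ[k] Pol k m) : Pol k m →+* Pol k m) := by
      refine uniq _ _ fun t => ?_
      rw [← act hF]
      have h2 : (σ (Multiplicative.ofAdd t)) (φ g) = φ ((σ (Multiplicative.ofAdd t)) g) :=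
        DFunLike.congr_fun (hφ (Multiplicative.ofAdd t)) g
      rw [h2, act hF]
      have h3 : (C t : Pol k m) = ((φ : Pol k m ≃ₐ[k] Pol k m) : Pol k m →+* Pol k m) (C t) :=
        (φ.commutes t).symm
      conv_rhs => rw [h3]
      rw [Polynomial.eval_map_apply]
      rfl
    rw [DD_apply, DD_apply, h1, Polynomial.coeff_map]
    rfl
  · intro hs g h
    obtain ⟨N, hN⟩ : ∃ N, (EE F g).natDegree < N + 2 ∧ (EE F h).natDegree < N + 2 :=
      ⟨max (EE F g).natDegree (EE F h).natDegree, by omega, by omega⟩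
    have h1 : EE F (br g h) = brP N (EE F g) (EE F h) := by
      refine uniq _ _ fun t => ?_
      rw [brP_eval N _ _ hN.1 hN.2, ← act hF, ← act hF, ← act hF]
      exact hs _ g h
    rw [DD_apply, DD_apply, DD_apply, h1, brP_coeff, coeff0 hF, coeff0 hF, add_comm]
  · intro h0 s
    refine AlgEquiv.ext fun g => ?_
    have h1 : EE F g = Polynomial.C g := by
      refine Polynomial.ext fun n => ?_
      cases n with
      | zero => rw [coeff0 hF, Polynomial.coeff_C_zero]
      | succ n =>
        rw [Polynomial.coeff_C_succ]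
        have h2 := DD_coeff hF g n
        rw [h0] at h2
        have h3 : ((n + 1 : ℕ) : Pol k m) ≠ 0 := by
          exact_mod_cast (Nat.succ_ne_zero n)
        exact (mul_eq_zero.1 h2.symm).resolve_left h3
    have h4 := act hF (Multiplicative.toAdd s) g
    rw [ofAdd_toAdd, h1, Polynomial.eval_C] at h4
    exact h4

end Pool.Agent.H7.TG
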