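import Pool.Agent.H15.TG.Targets
import Pool.Agent.H2.ST.Basic2

/-! Row GAF of the board `tga_modules` (problem MP_51eb24_ag): the invariant Hamiltonian. -/

set_option autoImplicit false

namespace Pool.Agent.H7.TG

open MvPolynomial Pool.Agent.H2.ST Pool.Agent.H15.TG

/-- an element of the torus with nontrivial character -/
theorem chr_ne {k : Type} [Field k] [CharZero k] {d : ℕ} (χ : Fin d → ℤ) (hχ : χ ≠ 0) :
    ∃ t : Fin d → kˣ, chr χ t ≠ 1 := by
  classical
  obtain ⟨j, hj⟩ : ∃ j, χ j ≠ 0 := by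
    by_contra hc
    push Not at hc
    exact hχ (funext hc)
  have h2 : (2 : k) ≠ 0 := by norm_num
  refine ⟨Pi.mulSingle j (Units.mk0 2 h2), ?_⟩
  unfold chr
  rw [Finset.prod_eq_single j]
  · rw [Pi.mulSingle_eq_same]
    intro h3
    have h4 : ((Units.mk0 (2 : k) h2) ^ (χ j).natAbs : kˣ) = 1 := by
      have h5 : (Units.mk0 (2 : k) h2) ^ ((χ j).natAbs : ℤ) = 1 := by
        rcases Int.natAbs_eq (χ j) with h | h
        · rw [← h]; exact h3
        · rw [show ((χ j).natAbs : ℤ) = -(χ j) by omega, zpow_neg, h3, inv_one]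
      rwa [zpow_natCast] at h5
    have h6 := congrArg (fun x : kˣ => (x : k)) h4
    simp only [Units.val_pow_eq_pow_val, Units.val_mk0, Units.val_one] at h6
    have h7 : (2 : ℕ) ^ (χ j).natAbs = 1 := by exact_mod_cast h6
    have h8 : 0 < (χ j).natAbs := Int.natAbs_pos.2 hj
    have h9 := Nat.one_lt_two_pow h8.ne'
    omega
  · intro i _ hi
    rw [Pi.mulSingle_eq_of_ne hi, one_zpow]
  · intro h
    exact absurd (Finset.mem_univ _) h

theorem pf_GAF (hGAD : T_GAD) (hHAM : T_HAM) (hGRD : T_GRD) : T_GAF := by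
  intro k _ _ m d ρ σ hρ hρs hσ hσs hne hcomm
  obtain ⟨D, hD1, hD2, hD3, hD4⟩ := hGAD k m σ hσ
  obtain ⟨f, hf⟩ := hHAM k m D (hD3 hσs)
  have hG : Gr (Wt ρ) := hGRD k (Fin m ⊕ Fin m) d ρ hρ
  have hiter : ∀ (n : ℕ) (g : Pol k m), (br f)^[n] g = D^[n] g := by
    intro n
    induction n with
    | zero => intro g; rfl
    | succ n ih =>
      intro g
      rw [Function.iterate_succ_apply, Function.iterate_succ_apply, ih, ← hf]
  -- `ρ t f - f` is a constant
  have hconst : ∀ t, ∃ c : k, ρ t f - f = C c := by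
    intro t
    refine const_of_br _ fun s => ?_
    have h1 := hD2 (ρ t) (fun s' => hcomm s' t) ((ρ t).symm (X s))
    rw [AlgEquiv.apply_symm_apply, hf, hf, hρs t, AlgEquiv.apply_symm_apply] at h1
    rw [sub_br, ← h1, sub_self]
  have hf0 : f ∈ Wt ρ 0 := by
    refine mem_of_cmp hG fun χ hχ => ?_
    obtain ⟨t, ht⟩ := chr_ne (k := k) χ hχ
    obtain ⟨c, hc⟩ := hconst t
    -- the components of `ρ t f - f`
    have h1 : ((cmp hG f).sum fun χ x => (((chr χ t : kˣ) : k) - 1) • x) = C c := by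
      have h2 : ((cmp hG f).sum fun χ x => (((chr χ t : kˣ) : k) - 1) • x) =
          ((cmp hG f).sum fun χ x => ρ t x) - (cmp hG f).sum fun _ x => x := by
        unfold Finsupp.sum
        rw [← Finset.sum_sub_distrib]
        refine Finset.sum_congr rfl fun a _ => ?_
        have h3 : ρ t (cmp hG f a) = ((chr a t : kˣ) : k) • cmp hG f a := cmp_mem hG f a t
        show (((chr a t : kˣ) : k) - 1) • cmp hG f a = ρ t (cmp hG f a) - cmp hG f a
        rw [h3, sub_smul, one_smul]
      have h4 : ((cmp hG f).sum fun χ x => ρ t x) = ρ t f := by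
        conv_rhs => rw [← cmp_sum hG f]
        unfold Finsupp.sum
        rw [map_sum]
      rw [h2, h4, cmp_sum, hc]
    have h5 : (C c : Pol k m) ∈ Wt ρ 0 := algebraMap_mem_gr hG c
    obtain ⟨c₁, hc₁⟩ : ∃ c₁ : (Fin d → ℤ) →₀ Pol k m,
        ∀ a, c₁ a = (((chr a t : kˣ) : k) - 1) • cmp hG f a := by
      refine ⟨Finsupp.onFinset (cmp hG f).support
        (fun a => (((chr a t : kˣ) : k) - 1) • cmp hG f a) ?_, fun a => rfl⟩
      intro a ha
      rw [Finsupp.mem_support_iff]
      intro h0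
      rw [h0, smul_zero] at ha
      exact ha rfl
    have h6 : (c₁.sum fun _ x => x) = C c := by
      rw [← h1]
      unfold Finsupp.sum
      refine Finset.sum_subset_zero_on_sdiff ?_ ?_ ?_
      · intro a ha
        rw [Finsupp.mem_support_iff, hc₁] at ha
        rw [Finsupp.mem_support_iff]
        intro h0
        rw [h0, smul_zero] at ha
        exact ha rfl
      · intro a ha
        rw [Finset.mem_sdiff, Finsupp.notMem_support_iff, hc₁] at ha
        exact ha.2
      · intro a _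
        exact hc₁ a
    have h7 : ∀ a, c₁ a ∈ Wt ρ a := by
      intro a
      rw [hc₁]
      exact (Wt ρ a).smul_mem _ (cmp_mem hG f a)
    have h8 := cmp_uniq hG (C c) c₁ h7 h6
    have h9 := cmp_of_mem hG h5
    have h10 : c₁ χ = 0 := by
      rw [← h8, h9, Finsupp.single_eq_of_ne hχ]
    rw [hc₁, smul_eq_zero] at h10
    rcases h10 with h11 | h11
    · exfalso
      apply ht
      refine Units.ext ?_
      rw [Units.val_one]
      exact sub_eq_zero.1 h11
    · exact h11
  refine ⟨f, hf0, ?_, ?_⟩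
  · rintro ⟨c, hc⟩
    obtain ⟨s, hs⟩ := hne
    refine hs (hD4 (fun g => ?_) s)
    rw [hf, hc, C_br]
  · intro g
    obtain ⟨n, hn⟩ := hD1 g
    exact ⟨n, by rw [hiter, hn]⟩

end Pool.Agent.H7.TG
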